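import Pool.Agent.Lib.MP_f6c7cf_nt.NC.Dev

/-! Residue classes of exponents that avoid a finite set of primes, with free classes. -/

namespace Pool.Agent.Lib.MP_f6c7cf_nt.NC

open Finset Pool.Agent.Lib.MP_f6c7cf_nt.E Pool.Agent.Lib.MP_f6c7cf_nt.E.LocalAux
open scoped Quaternion

/-- the conclusion needed by the equidistribution theorem -/
def Cls (Q : Finset ℕ) (M n : ℕ) : Prop :=
  ∃ c : O, (∀ p : ℕ, p.Prime → p ∣ M → ¬ ∃ w : O, c = (p : ℤ) • w) ∧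
    N c ≡ n [ZMOD (2 * M : ℤ)] ∧ Even c.imK ∧
    ∀ x y z : ℕ, (x : ℤ) ≡ c.re [ZMOD (M : ℤ)] → (y : ℤ) ≡ c.imI [ZMOD (M : ℤ)] →
      (z : ℤ) ≡ c.imJ [ZMOD (M : ℤ)] → ∀ q ∈ Q, ¬ q ∣ 2 ^ x + 2 ^ y + 2 ^ z + 1

lemma fin (Q : Finset ℕ) (hQ : ∀ q ∈ Q, q.Prime ∧ q ≠ 2) (n : ℕ) (x y z W : ℤ)
    (h1 : ∀ p : ℕ, p.Prime → p ∣ 8 * Q.lcm od → ¬ ((p : ℤ) ∣ x ∧ (p : ℤ) ∣ y ∧ (p : ℤ) ∣ z))
    (h2 : ((8 * Q.lcm od : ℕ) : ℤ) ∣ x ^ 2 + y ^ 2 + z ^ 2 + W ^ 2 - n) (h3 : Even W)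
    (h4 : ∀ q ∈ Q, ∀ [Fact q.Prime], (2 : ZMod q) ^ x + 2 ^ y + 2 ^ z + 1 ≠ 0) :
    Cls Q (4 * Q.lcm od) n := by
  refine ⟨⟨x, y, z, W⟩, ?_, ?_, h3, ?_⟩
  · rintro p hp hpL ⟨w, hw⟩
    exact h1 p hp (hpL.trans ⟨2, by ring⟩) ⟨⟨w.re, by simpa using congrArg (·.re) hw⟩,
      ⟨w.imI, by simpa using congrArg (·.imI) hw⟩, ⟨w.imJ, by simpa using congrArg (·.imJ) hw⟩⟩
  · refine (Int.modEq_iff_dvd.2 ?_).symm
    have e : N (⟨x, y, z, W⟩ : O) = x ^ 2 + y ^ 2 + z ^ 2 + W ^ 2 := Quaternion.normSq_def' _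
    rw [e]
    exact Dvd.dvd.trans (dvd_of_eq (by push_cast; ring)) h2
  · intro a b c hx hy hz q hq hd
    have : Fact q.Prime := ⟨(hQ q hq).1⟩
    have h5 : (2 : ZMod q) ≠ 0 := two_ne (hQ q hq).2
    have h6 : (orderOf (2 : ZMod q) : ℤ) ∣ ((4 * Q.lcm od : ℕ) : ℤ) :=
      Int.natCast_dvd_natCast.2 ((Finset.dvd_lcm (f := od) hq).mul_left 4)
    apply h4 q hq
    rw [← zpow_congr h5 h6 hx, ← zpow_congr h5 h6 hy, ← zpow_congr h5 h6 hz]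
    exact_mod_cast (ZMod.natCast_eq_zero_iff _ _).2 hd

section Field

variable {K : Type} [Field K]

lemma neg_one {s : ℤ} (h2 : (2 : K) ≠ 0) (a : (orderOf (2 : K) : ℤ) ∣ 2 * s)
    (b : ¬ (orderOf (2 : K) : ℤ) ∣ s) : (2 : K) ^ s = -1 := by
  rw [ord_dvd h2] at a b
  rw [two_mul, zpow_add₀ h2] at a
  exact (mul_self_eq_one_iff.1 a).resolve_left b

lemma odd_ne {y z : ℤ} (h2 : (2 : K) ≠ 0) (a : 4 ∣ orderOf (2 : K)) (o : (y - z) % 2 = 1) :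
    (2 : K) ^ y + 2 ^ z ≠ 0 := by
  intro h
  have e : (2 : K) ^ y = 2 ^ (y - z) * 2 ^ z := by rw [← zpow_add₀ h2, sub_add_cancel]
  have e1 : (2 : K) ^ (y - z) = -1 :=
    mul_right_cancel₀ (zpow_ne_zero z h2) (by linear_combination h - e)
  have e2 : (orderOf (2 : K) : ℤ) ∣ 2 * (y - z) := by
    rw [ord_dvd h2, two_mul, zpow_add₀ h2, e1]; ring
  have e3 : ((4 : ℕ) : ℤ) ∣ 2 * (y - z) := (Int.natCast_dvd_natCast.2 a).trans e2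
  push_cast at e3
  omega

end Field

lemma hz {p : ℕ} (hp : p.Prime) (hp2 : p ≠ 2) {t : ℤ} (h : (p : ℤ) ∣ 8 * t) : (p : ℤ) ∣ t := by
  have i := Nat.prime_iff_prime_int.1 hp
  refine (i.dvd_or_dvd h).resolve_left fun h8 => ndvd hp Nat.prime_two hp2 ?_
  exact i.dvd_of_dvd_pow (n := 3) (by simpa using h8)

lemma one_not {p : ℕ} (hp : p.Prime) : ¬ (p : ℤ) ∣ 1 := (Nat.prime_iff_prime_int.1 hp).not_dvd_one

theorem cls₁ (Q : Finset ℕ) (hQ : ∀ q ∈ Q, q.Prime ∧ q ≠ 2) (n : ℕ) (hn : n % 4 = 1)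
    (H : ∀ p : ℕ, p.Prime → p ∣ 5 * n - 4 → ¬ IsSquare (-(5 : ZMod p)) →
      (∀ q ∈ Q, p ^ 2 ∣ od q → q % 4 = 3) ∨ ∀ q ∈ Q, p ^ 2 ∣ od q → Top Q q) :
    Cls Q (4 * Q.lcm od) n := by
  have hD : ((5 * n - 4 : ℕ) : ℤ) = 5 * n - 4 := by omega
  have alt : ∀ p : ℕ, p.Prime → p ≠ 2 → ∀ (e : ℕ) (a W : ℤ), (p : ℤ) ∣ a + 2 →
      (p : ℤ) ∣ 0 ^ 2 + (a + 2 + 0) ^ 2 + (2 * a + 2) ^ 2 + W ^ 2 - n → ∃ a' : ℤ,
      (p : ℤ) ^ e ∣ 0 ^ 2 + (a' + 2 + 0) ^ 2 + (2 * a' + 2) ^ 2 + W ^ 2 - n ∧ (p : ℤ) ∣ a - a' := by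
    intro p hp hp2 e a W h1 h2
    obtain ⟨x, b1, b2⟩ := hensel hp (a := 5) (b := 12) (c := 8 + W ^ 2 - n) (x₀ := a)
      (h2.trans (dvd_of_eq (by ring))) (fun h => one_not hp (hz hp hp2
        (((h1.mul_left 10).sub h).trans (dvd_of_eq (by ring))))) e
    exact ⟨x, b2.trans (dvd_of_eq (by ring)), b1.dvd⟩
  obtain ⟨a, s, u, W, h1, h2, h3, h4, h5⟩ := dev Q hQ
    (fun a s u W => s ^ 2 + (a + 2 + u) ^ 2 + (2 * a + 2) ^ 2 + W ^ 2 - n)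
    (fun m a a' s s' u u' W W' ha hs hu hW => ((((hs.pow 2).add (((ha.add_right 2).add hu).pow 2)).add
      (((ha.mul_left 2).add_right 2).pow 2)).add (hW.pow 2)).sub_right _)
    1 1 (-2) (fun p a => ¬ (p : ℤ) ∣ 2 * a + 1)
    (fun p a a' h h' h'' => h' ((h''.add (h.mul_left 2)).trans (dvd_of_eq (by ring))))
    (fun p => p ∣ 5 * n - 4 ∧ ¬ IsSquare (-(5 : ZMod p)))
    (by
      rintro _ ⟨t, rfl⟩ e
      obtain ⟨a, W, b1, b2⟩ := loc_two 5 12 (8 - n + (t + t) ^ 2) 1 5 (6 - n / 4 + t ^ 2) e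
        (by norm_num) (by have : (t + t) ^ 2 = 4 * t ^ 2 := by ring
                          omega)
      exact ⟨a, W, b1.trans (dvd_of_eq (by ring)), b2⟩)
    (fun p hp hp2 e he => by
      obtain ⟨a, W, b1, b2⟩ := loc1 hp hp2 n e fun h3 h4 => by
        by_contra h5
        exact he h3 ⟨by rwa [← Int.natCast_dvd_natCast, hD], h5⟩
      exact ⟨a, W, b1.trans (dvd_of_eq (by ring)), b2⟩)
    (fun p hp hp2 e a W h => by
      by_cases hc : (p : ℤ) ∣ a + 2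
      · obtain ⟨a', b1, b2⟩ := alt p hp hp2 e a W hc h
        exact ⟨a', 0, 0, b1, b2, dvd_zero _, dvd_zero _, by ring⟩
      · obtain ⟨x, b1, b2⟩ := hensel hp (a := 5) (b := 2 * (a + 2))
          (c := (a + 2) ^ 2 + (2 * a + 2) ^ 2 + W ^ 2 - n) (x₀ := 0)
          (h.trans (dvd_of_eq (by ring)))
          (fun h => hc (hz hp hp2 ((h.mul_left 4).trans (dvd_of_eq (by ring))))) e
        have b3 := Int.modEq_zero_iff_dvd.1 b1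
        exact ⟨a, 2 * x, x, b2.trans (dvd_of_eq (by ring)), by simp, b3.mul_left 2, b3, by ring⟩)
    (fun p hp hp2 e a W h => by
      by_cases hc : (p : ℤ) ∣ a + 2
      · obtain ⟨a', b1, b2⟩ := alt p hp hp2 e a W hc h
        exact ⟨a', 0, b1, b2, dvd_zero _⟩
      · obtain ⟨x, b1, b2⟩ := hensel hp (a := 1) (b := 2 * (a + 2))
          (c := (a + 2) ^ 2 + (2 * a + 2) ^ 2 + W ^ 2 - n) (x₀ := 0)
          (h.trans (dvd_of_eq (by ring)))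
          (fun h => hc (hz hp hp2 ((h.mul_left 4).trans (dvd_of_eq (by ring))))) e
        exact ⟨a, x, b2.trans (dvd_of_eq (by ring)), by simp, Int.modEq_zero_iff_dvd.1 b1⟩)
    (fun p hp h => H p hp h.1 h.2)
  obtain ⟨-, u2, -⟩ := h4 2 Nat.prime_two ⟨4 * Q.lcm od, by ring⟩
  push_cast at u2
  refine fin Q hQ n s (a + 2 + u) (2 * a + 2) W ?_ h1 h3 fun q hq _ h => ?_
  · rintro p hp hpL ⟨-, b1, b2⟩
    have b3 := (h4 p hp hpL).2.1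
    have h8 : (p : ℤ) ∣ ((2 : ℕ) : ℤ) :=
      (((b1.sub b3).mul_left 2).sub b2).trans (dvd_of_eq (by push_cast; ring))
    obtain rfl := (Nat.prime_dvd_prime_iff_eq hp Nat.prime_two).1 (Int.natCast_dvd_natCast.1 h8)
    push_cast at b1
    omega
  have t : (2 : ZMod q) ≠ 0 := two_ne (hQ q hq).2
  rcases h5 q hq with ⟨b1, b2⟩ | ⟨b1, b2, b3⟩ | ⟨b1, b2, -⟩
  · have e1 : (2 : ZMod q) ^ s = 2 ^ u * 2 ^ u := by
      rw [← zpow_add₀ t]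
      exact pow_mod t ((ord_dvd t).1 dvd_rfl) (b2.trans (dvd_of_eq (by ring)))
    have e2 : (2 : ZMod q) ^ (a + 2 + u) = 2 * 2 ^ (a + 1) * 2 ^ u := by
      rw [← zpow_one_add₀ t, ← zpow_add₀ t]; congr 1; ring
    have e3 : (2 : ZMod q) ^ (2 * a + 2) = 2 ^ (a + 1) * 2 ^ (a + 1) := by
      rw [← zpow_add₀ t]; congr 1; ring
    exact ZMod.mod_four_ne_three_of_sq_eq_neg_one (y := (2 : ZMod q) ^ u + 2 ^ (a + 1))
      (by linear_combination h - e1 - e2 - e3) b1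
  · exact odd_ne t b1 (y := a + 2 + u) (z := 2 * a + 2) (by omega)
      (by linear_combination h - neg_one t b2 b3)
  · refine case1 t (coprime_of fun p hp hpd => ?_) h2 ?_
    · by_cases hp2 : p = 2
      · subst hp2
        push_cast
        omega
      · exact (h4 p hp ((hpd.trans (Finset.dvd_lcm (f := od) hq)).mul_left 8)).2.2 hp2
    · rwa [(ord_dvd t).1 b1, zpow_add₀ t (a + 2), (ord_dvd t).1 b2, mul_one, ← zpow_zero 2] at h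

theorem cls₂ (Q : Finset ℕ) (hQ : ∀ q ∈ Q, q.Prime ∧ q ≠ 2) (n : ℕ) (hn : n % 4 = 3)
    (h41 : n % 5 = 1 → 41 ∈ Q → Top Q 41)
    (H : ∀ p : ℕ, p.Prime → p ∣ 3 * n - 8 → ¬ IsSquare (-(3 : ZMod p)) →
      (∀ q ∈ Q, p ^ 2 ∣ od q → q % 4 = 3) ∨ ∀ q ∈ Q, p ^ 2 ∣ od q → Top Q q) :
    Cls Q (4 * Q.lcm od) n := by
  have hD : ((3 * n - 8 : ℕ) : ℤ) = 3 * n - 8 := by omega
  have alt : ∀ p : ℕ, p.Prime → p ≠ 2 → ∀ (e : ℕ) (a W : ℤ), ¬ (p : ℤ) ∣ 6 * a - 2 →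
      (p : ℤ) ∣ (-a - 1 + 0) ^ 2 + (a - 1) ^ 2 + (a - 1 + 0) ^ 2 + W ^ 2 - n → ∃ a' : ℤ,
      (p : ℤ) ^ e ∣ (-a' - 1 + 0) ^ 2 + (a' - 1) ^ 2 + (a' - 1 + 0) ^ 2 + W ^ 2 - n ∧
        (p : ℤ) ∣ a - a' := by
    intro p hp hp2 e a W h1 h2
    obtain ⟨x, b1, b2⟩ := hensel hp (a := 3) (b := -2) (c := 3 + W ^ 2 - n) (x₀ := a)
      (h2.trans (dvd_of_eq (by ring))) (fun h => h1 (h.trans (dvd_of_eq (by ring)))) e
    exact ⟨x, b2.trans (dvd_of_eq (by ring)), b1.dvd⟩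
  obtain ⟨a, s, u, W, h1, h2, h3, h4, h5⟩ := dev Q hQ
    (fun a s u W => (-a - 1 + u) ^ 2 + (a - 1) ^ 2 + (a - 1 + s) ^ 2 + W ^ 2 - n)
    (fun m a a' s s' u u' W W' ha hs hu hW => ((((((ha.neg.sub_right 1).add hu).pow 2).add
      ((ha.sub_right 1).pow 2)).add (((ha.sub_right 1).add hs).pow 2)).add (hW.pow 2)).sub_right _)
    2 0 1 (fun p a => (p = 5 → (n : ℤ) % 5 ≠ 1) → ¬ (p : ℤ) ∣ 2 * a + 1)
    (fun p a a' h h' h5 h'' => h' h5 ((h''.add (h.mul_left 2)).trans (dvd_of_eq (by ring))))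
    (fun p => p ∣ 3 * n - 8 ∧ ¬ IsSquare (-(3 : ZMod p)))
    (by
      rintro _ ⟨t, rfl⟩ e
      obtain ⟨a, W, b1, b2⟩ := loc_two 3 (4 * t - 2) (3 - 4 * t + 4 * t ^ 2 - n) 2 (t + 2)
        (2 + t + t ^ 2 - n / 4) e (by ring) (by omega)
      exact ⟨a, W, b1.trans (dvd_of_eq (by ring)), b2⟩)
    (fun p hp hp2 e he => by
      obtain ⟨a, W, b1, b2⟩ := loc4 hp hp2 n e fun h3 h4 => by
        by_contra h5
        exact he h3 ⟨by rwa [← Int.natCast_dvd_natCast, hD], h5⟩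
      exact ⟨a, W, b1.trans (dvd_of_eq (by ring)), b2⟩)
    (fun p hp hp2 e a W h => by
      by_cases hc : (p : ℤ) ∣ 6 * a - 2
      · obtain ⟨x, b1, b2⟩ := hensel hp (a := 1) (b := 2 * (a - 1))
          (c := (-a - 1) ^ 2 + (a - 1) ^ 2 + (a - 1) ^ 2 + W ^ 2 - n) (x₀ := 0)
          (h.trans (dvd_of_eq (by ring))) (fun h => one_not hp (hz hp hp2
            (((hc.mul_left 2).sub (h.mul_left 6)).trans (dvd_of_eq (by ring))))) e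
        exact ⟨a, x, 0, b2.trans (dvd_of_eq (by ring)), by simp, Int.modEq_zero_iff_dvd.1 b1,
          dvd_zero _, by ring⟩
      · obtain ⟨a', b1, b2⟩ := alt p hp hp2 e a W hc h
        exact ⟨a', 0, 0, b1, b2, dvd_zero _, dvd_zero _, by ring⟩)
    (fun p hp hp2 e a W h => by
      by_cases hc : (p : ℤ) ∣ 6 * a - 2
      · obtain ⟨x, b1, b2⟩ := hensel hp (a := 1) (b := 2 * (-a - 1))
          (c := (-a - 1) ^ 2 + (a - 1) ^ 2 + (a - 1) ^ 2 + W ^ 2 - n) (x₀ := 0)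
          (h.trans (dvd_of_eq (by ring))) (fun h => one_not hp (hz hp hp2
            (((hc.neg_right).sub (h.mul_left 3)).trans (dvd_of_eq (by ring))))) e
        exact ⟨a, x, b2.trans (dvd_of_eq (by ring)), by simp, Int.modEq_zero_iff_dvd.1 b1⟩
      · obtain ⟨a', b1, b2⟩ := alt p hp hp2 e a W hc h
        exact ⟨a', 0, b1, b2, dvd_zero _⟩)
    (fun p hp h => H p hp h.1 h.2)
  obtain ⟨⟨s, rfl⟩, u2, -⟩ := h4 2 Nat.prime_two ⟨4 * Q.lcm od, by ring⟩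
  push_cast at u2 h1 h4 h5
  refine fin Q hQ n (-a - 1 + u) (a - 1) (a - 1 + 2 * s) W ?_ (by exact_mod_cast h1) h3
    fun q hq _ h => ?_
  · rintro p hp hpL ⟨b1, b2, -⟩
    have b3 := (h4 p hp hpL).2.1
    have h8 : (p : ℤ) ∣ ((2 : ℕ) : ℤ) :=
      ((b3.sub b1).sub b2).trans (dvd_of_eq (by push_cast; ring))
    obtain rfl := (Nat.prime_dvd_prime_iff_eq hp Nat.prime_two).1 (Int.natCast_dvd_natCast.1 h8)
    push_cast at b2
    omega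
  have t : (2 : ZMod q) ≠ 0 := two_ne (hQ q hq).2
  rw [zpow_add₀ t (-a - 1), zpow_add₀ t (a - 1)] at h
  rcases h5 q hq with ⟨b1, b2⟩ | ⟨b1, b2, b3⟩ | ⟨b1, b2, b3, b4⟩
  · have e0 : (2 : ZMod q) ^ u = 1 := (ord_dvd t).1 (b2.trans (dvd_of_eq (by ring)))
    have e1 : (2 : ZMod q) ^ (-a - 1) * (2 * 2 ^ a) = 1 := by
      rw [← zpow_one_add₀ t, ← zpow_add₀ t, show -a - 1 + (1 + a) = 0 by ring, zpow_zero]
    have e2 : (2 : ZMod q) ^ (a - 1) * 2 = 2 ^ a := by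
      rw [← zpow_add_one₀ t, sub_add_cancel]
    have e3 : (2 : ZMod q) ^ (2 * s) = 2 ^ s * 2 ^ s := by rw [two_mul, zpow_add₀ t]
    rw [e0, e3, mul_one] at h
    exact ZMod.mod_four_ne_three_of_sq_eq_neg_sq' (x := 1 + (2 : ZMod q) ^ a) (y := 2 ^ a * 2 ^ s)
      (mul_ne_zero (zpow_ne_zero _ t) (zpow_ne_zero _ t))
      (by linear_combination (2 * 2 ^ a) * h - e1 - 2 ^ a * (1 + 2 ^ s * 2 ^ s) * e2) b1
  · refine odd_ne t b1 (y := -a - 1 + u) (z := 0) (by omega) ?_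
    rw [neg_one t b2 b3] at h
    rw [zpow_add₀ t, zpow_zero]
    linear_combination h
  · rw [(ord_dvd t).1 b1, (ord_dvd t).1 b2, mul_one, mul_one] at h
    refine case4 t h2 (fun p hp hpd hpa => ?_) h
    have hp2 : p ≠ 2 := by
      rintro rfl
      push_cast at hpa
      omega
    have h8 : ¬ (p = 5 → (n : ℤ) % 5 ≠ 1) := fun h =>
      (h4 p hp ((hpd.trans (Finset.dvd_lcm (f := od) hq)).mul_left 8)).2.2 hp2 h hpa
    push Not at h8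
    refine ⟨h8.1, fun h9 => ?_, fun h9 => ?_⟩
    · rcases H 5 Nat.prime_five (by omega) (by decide) with h | h
      · exact b3 (h q hq h9)
      · exact b4 (h q hq h9)
    · have h10 : q ∣ 41 := (ZMod.natCast_eq_zero_iff 41 q).1 (by exact_mod_cast h9)
      obtain rfl := (Nat.prime_dvd_prime_iff_eq (hQ q hq).1 (by norm_num)).1 h10
      exact b4 (h41 (by omega) hq)

end Pool.Agent.Lib.MP_f6c7cf_nt.NC
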