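import Pool.Agent.Lib.MP_f6c7cf_nt.E.Local2

/-! Leaving an exponent line inside a plane at the bad primes. -/

namespace Pool.Agent.Lib.MP_f6c7cf_nt.NC

open Finset Pool.Agent.Lib.MP_f6c7cf_nt.E Pool.Agent.Lib.MP_f6c7cf_nt.E.LocalAux
open scoped Quaternion

lemma lcm_pow {ι : Type} (Q : Finset ι) (f : ι → ℕ) (hf : ∀ q ∈ Q, f q ≠ 0) {p k : ℕ}
    (hp : p.Prime) (hk : k ≠ 0) (h : p ^ k ∣ Q.lcm f) : ∃ q ∈ Q, p ^ k ∣ f q := by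
  classical
  induction Q using Finset.induction_on with
  | empty =>
    rw [Finset.lcm_empty] at h
    exact absurd (Nat.dvd_one.1 ((dvd_pow_self p hk).trans h)) hp.ne_one
  | insert i s hi ih =>
    have h1 : f i ≠ 0 := hf i (mem_insert_self _ _)
    have h2 : s.lcm f ≠ 0 := by
      rw [Ne, Finset.lcm_eq_zero_iff]
      rintro ⟨q, hq, hq0⟩
      exact hf q (mem_insert_of_mem hq) hq0
    rw [Finset.lcm_insert, lcm_eq_nat_lcm,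
      hp.pow_dvd_iff_le_factorization (Nat.lcm_ne_zero h1 h2), Nat.factorization_lcm h1 h2,
      Finsupp.sup_apply, le_sup_iff, ← hp.pow_dvd_iff_le_factorization h1,
      ← hp.pow_dvd_iff_le_factorization h2] at h
    rcases h with h | h
    · exact ⟨i, mem_insert_self _ _, h⟩
    · obtain ⟨q, hq, hq'⟩ := ih (fun q hq => hf q (mem_insert_of_mem hq)) h
      exact ⟨q, mem_insert_of_mem hq, hq'⟩

lemma dvd_loc {d : ℕ} {t : ℤ}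
    (h : ∀ p k : ℕ, p.Prime → k ≠ 0 → p ^ k ∣ d → (p : ℤ) ^ k ∣ t) : (d : ℤ) ∣ t := by
  rw [Int.natCast_dvd, Nat.dvd_iff_prime_pow_dvd_dvd]
  intro p k hp hd
  rcases eq_or_ne k 0 with rfl | hk
  · simp
  · rw [← Int.natCast_dvd]
    exact_mod_cast h p k hp hk hd

/-- the four-variable Chinese remainder step -/
lemma glue4 {R : ℕ} (hR : R ≠ 0) (G : ℤ → ℤ → ℤ → ℤ → ℤ)
    (hG : ∀ m a a' s s' u u' W W' : ℤ, a ≡ a' [ZMOD m] → s ≡ s' [ZMOD m] → u ≡ u' [ZMOD m] →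
      W ≡ W' [ZMOD m] → G a s u W ≡ G a' s' u' W' [ZMOD m])
    (S : ℕ → ℤ → ℤ → ℤ → ℤ → Prop)
    (h : ∀ p : ℕ, p.Prime → ∀ e : ℕ, ∃ a s u W : ℤ, (p : ℤ) ^ e ∣ G a s u W ∧ S p a s u W) :
    ∃ a s u W : ℤ, (R : ℤ) ∣ G a s u W ∧ ∀ p k : ℕ, p.Prime → k ≠ 0 → p ^ k ∣ R →
      ∃ a' s' u' W' : ℤ, (p : ℤ) ^ k ∣ a' - a ∧ (p : ℤ) ^ k ∣ s' - s ∧ (p : ℤ) ^ k ∣ u' - u ∧
        (p : ℤ) ^ k ∣ W' - W ∧ S p a' s' u' W' := by
  have h' := fun p hp => h p hp (R.factorization p)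
  choose! fa fs fu fW hf using h'
  obtain ⟨x, hx⟩ := crt (ι := Fin 4) R fun p => ![fa p, fs p, fu p, fW p]
  refine ⟨x 0, x 1, x 2, x 3, ?_, fun p k hp hk hd => ?_⟩
  · rw [← Int.modEq_zero_iff_dvd]
    refine modEq_of_local hR fun p hp => ?_
    refine (hG _ _ _ _ _ _ _ _ _ (hx p hp 0) (hx p hp 1) (hx p hp 2) (hx p hp 3)).trans ?_
    rw [Int.modEq_zero_iff_dvd]
    push_cast
    exact (hf p (Nat.prime_of_mem_primeFactors hp)).1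
  · have hm : p ∈ R.primeFactors := Nat.mem_primeFactors.2 ⟨hp, (dvd_pow_self p hk).trans hd, hR⟩
    have hk' : (p : ℤ) ^ k ∣ ((p ^ R.factorization p : ℕ) : ℤ) := by
      push_cast
      exact pow_dvd_pow _ ((hp.pow_dvd_iff_le_factorization hR).1 hd)
    exact ⟨fa p, fs p, fu p, fW p, hk'.trans (hx p hm 0).dvd, hk'.trans (hx p hm 1).dvd,
      hk'.trans (hx p hm 2).dvd, hk'.trans (hx p hm 3).dvd, (hf p hp).2⟩

/-- the order of two -/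
noncomputable abbrev od (q : ℕ) : ℕ := orderOf (2 : ZMod q)

/-- top 2-adic valuation, at least two -/
def Top (Q : Finset ℕ) (q : ℕ) : Prop :=
  4 ∣ od q ∧ ∀ r ∈ Q, ∀ k : ℕ, 2 ^ k ∣ od r → 2 ^ k ∣ od q

lemma od_ne {q : ℕ} (h : q.Prime ∧ q ≠ 2) : od q ≠ 0 := by
  have : Fact q.Prime := ⟨h.1⟩
  have h1 := orderOf_pos (Units.mk0 (2 : ZMod q) (two_ne h.2))
  rw [← orderOf_units, Units.val_mk0] at h1
  exact h1.ne'

lemma not_four {q : ℕ} (h : q.Prime ∧ q ≠ 2) (h3 : q % 4 = 3) : ¬ 4 ∣ od q := by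
  have : Fact q.Prime := ⟨h.1⟩
  intro h4
  have := h4.trans (ZMod.orderOf_dvd_card_sub_one (two_ne h.2))
  omega

lemma sub_dvd {m x y : ℤ} (h : m ∣ x - y) (hx : m ∣ x) : m ∣ y := by
  simpa using hx.sub h

theorem dev (Q : Finset ℕ) (hQ : ∀ q ∈ Q, q.Prime ∧ q ≠ 2) (G : ℤ → ℤ → ℤ → ℤ → ℤ)
    (hG : ∀ m a a' s s' u u' W W' : ℤ, a ≡ a' [ZMOD m] → s ≡ s' [ZMOD m] → u ≡ u' [ZMOD m] →
      W ≡ W' [ZMOD m] → G a s u W ≡ G a' s' u' W' [ZMOD m])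
    (r α β : ℤ) (S : ℕ → ℤ → Prop) (hS : ∀ (p : ℕ) (a a' : ℤ), (p : ℤ) ∣ a' - a → S p a' → S p a)
    (Bad : ℕ → Prop)
    (h2 : ∀ σ : ℤ, Even σ → ∀ e : ℕ, ∃ a W : ℤ, ((2 : ℕ) : ℤ) ^ e ∣ G a σ 0 W ∧ a % 4 = r ∧ Even W)
    (h0 : ∀ p : ℕ, p.Prime → p ≠ 2 → ∀ e : ℕ, (2 ≤ e → ¬ Bad p) →
      ∃ a W : ℤ, (p : ℤ) ^ e ∣ G a 0 0 W ∧ S p a)
    (h1 : ∀ p : ℕ, p.Prime → p ≠ 2 → ∀ (e : ℕ) (a W : ℤ), (p : ℤ) ∣ G a 0 0 W →
      ∃ a' s u : ℤ, (p : ℤ) ^ e ∣ G a' s u W ∧ (p : ℤ) ∣ a - a' ∧ (p : ℤ) ∣ s ∧ (p : ℤ) ∣ u ∧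
        α * s + β * u = 0)
    (h1' : ∀ p : ℕ, p.Prime → p ≠ 2 → ∀ (e : ℕ) (a W : ℤ), (p : ℤ) ∣ G a 0 0 W →
      ∃ a' u : ℤ, (p : ℤ) ^ e ∣ G a' 0 u W ∧ (p : ℤ) ∣ a - a' ∧ (p : ℤ) ∣ u)
    (H : ∀ p : ℕ, p.Prime → Bad p →
      (∀ q ∈ Q, p ^ 2 ∣ od q → q % 4 = 3) ∨ ∀ q ∈ Q, p ^ 2 ∣ od q → Top Q q) :
    ∃ a s u W : ℤ, ((8 * Q.lcm od : ℕ) : ℤ) ∣ G a s u W ∧ a % 4 = r ∧ Even W ∧
      (∀ p : ℕ, p.Prime → p ∣ 8 * Q.lcm od → (p : ℤ) ∣ s ∧ (p : ℤ) ∣ u ∧ (p ≠ 2 → S p a)) ∧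
      ∀ q ∈ Q, (q % 4 = 3 ∧ (od q : ℤ) ∣ α * s + β * u) ∨
        (4 ∣ od q ∧ (od q : ℤ) ∣ 2 * s ∧ ¬ (od q : ℤ) ∣ s) ∨
        ((od q : ℤ) ∣ s ∧ (od q : ℤ) ∣ u ∧ q % 4 ≠ 3 ∧ ¬ Top Q q) := by
  have hord : ∀ q ∈ Q, od q ≠ 0 := fun q hq => od_ne (hQ q hq)
  have hdL : ∀ q ∈ Q, od q ∣ Q.lcm od := fun q hq => Finset.dvd_lcm hq
  have hL0 : Q.lcm od ≠ 0 := by
    rw [Ne, Finset.lcm_eq_zero_iff]
    rintro ⟨q, hq, hq0⟩
    exact hord q hq hq0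
  have hlp := fun k => lcm_pow Q od hord (k := k) Nat.prime_two
  generalize Q.lcm od = L at *
  obtain ⟨v, hv⟩ : ∃ v, v = L.factorization 2 := ⟨_, rfl⟩
  have hv' : ∀ k, 2 ^ k ∣ L ↔ k ≤ v := fun k => by
    rw [hv, Nat.prime_two.pow_dvd_iff_le_factorization hL0]
  obtain ⟨j, hj⟩ : ∃ j, j + 1 = max v 2 := ⟨max v 2 - 1, by omega⟩
  have ev : Even ((2 : ℤ) ^ j) := (Int.even_pow' (by omega)).2 even_two
  obtain ⟨a, s, u, W, hd, hT⟩ := glue4 (R := 8 * L) (by omega) G hG (fun p a s u W =>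
      (p = 2 → a % 4 = r ∧ Even W ∧ s = 2 ^ j ∧ u = 0) ∧
      (p ≠ 2 → S p a ∧ (p : ℤ) ∣ s ∧ (p : ℤ) ∣ u ∧ ((s = 0 ∧ u = 0) ∨
        (α * s + β * u = 0 ∧ ∀ q ∈ Q, p ^ 2 ∣ od q → q % 4 = 3) ∨
        (s = 0 ∧ ∀ q ∈ Q, p ^ 2 ∣ od q → Top Q q)))) (by
    intro p hp e
    by_cases hp2 : p = 2
    · subst hp2
      obtain ⟨a, W, b1, b2, b3⟩ := h2 _ ev e
      exact ⟨a, _, 0, W, b1, fun _ => ⟨b2, b3, rfl, rfl⟩, fun h => absurd rfl h⟩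
    by_cases hb : Bad p
    · obtain ⟨a, W, b1, b2⟩ := h0 p hp hp2 1 (by omega)
      rw [pow_one] at b1
      rcases H p hp hb with h | h
      · obtain ⟨a', s, u, c1, c2, c3, c4, c5⟩ := h1 p hp hp2 e a W b1
        exact ⟨a', s, u, W, c1, fun h => absurd h hp2, fun _ =>
          ⟨hS p _ _ c2 b2, c3, c4, Or.inr (Or.inl ⟨c5, h⟩)⟩⟩
      · obtain ⟨a', u, c1, c2, c4⟩ := h1' p hp hp2 e a W b1
        exact ⟨a', 0, u, W, c1, fun h => absurd h hp2, fun _ =>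
          ⟨hS p _ _ c2 b2, dvd_zero _, c4, Or.inr (Or.inr ⟨rfl, h⟩)⟩⟩
    · obtain ⟨a, W, b1, b2⟩ := h0 p hp hp2 e fun _ => hb
      exact ⟨a, 0, 0, W, b1, fun h => absurd h hp2, fun _ =>
        ⟨b2, dvd_zero _, dvd_zero _, Or.inl ⟨rfl, rfl⟩⟩⟩)
  obtain ⟨a', s', u', W', e1, -, -, e4, e5, -⟩ :=
    hT 2 2 Nat.prime_two two_ne_zero ⟨2 * L, by ring⟩
  obtain ⟨e6, e7, -⟩ := e5 rfl
  rw [Int.even_iff] at e7
  push_cast at e1 e4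
  -- a linear form is divisible by the order when it is so locally
  have key : ∀ q ∈ Q, ∀ x y : ℤ, (∀ k, 2 ^ k ∣ od q → (2 : ℤ) ^ k ∣ x * 2 ^ j) →
      (∀ (p : ℕ) (s u : ℤ), p ^ 2 ∣ od q → ((s = 0 ∧ u = 0) ∨
        (α * s + β * u = 0 ∧ ∀ q ∈ Q, p ^ 2 ∣ od q → q % 4 = 3) ∨
        (s = 0 ∧ ∀ q ∈ Q, p ^ 2 ∣ od q → Top Q q)) → x * s + y * u = 0) →
      (od q : ℤ) ∣ x * s + y * u := by
    intro q hq x y k2 kp
    refine dvd_loc fun p k hp hk hpk => ?_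
    obtain ⟨a', s', u', W', -, f2, f3, -, f5, f6⟩ :=
      hT p k hp hk ((hpk.trans (hdL q hq)).mul_left 8)
    refine sub_dvd (x := x * s' + y * u')
      (((f2.mul_left x).add (f3.mul_left y)).trans (dvd_of_eq (by ring))) ?_
    by_cases hp2 : p = 2
    · subst hp2
      obtain ⟨-, -, rfl, rfl⟩ := f5 rfl
      simpa using k2 k hpk
    · obtain ⟨-, g1, g2, g3⟩ := f6 hp2
      by_cases hk2 : 2 ≤ k
      · rw [kp p s' u' ((pow_dvd_pow _ hk2).trans hpk) g3]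
        exact dvd_zero _
      · obtain rfl : k = 1 := by omega
        rw [pow_one]
        exact (g1.mul_left x).add (g2.mul_left y)
  refine ⟨a, s, u, W, hd, by omega, Int.even_iff.2 (by omega), fun p hp hpd => ?_, fun q hq => ?_⟩
  · obtain ⟨a', s', u', W', f1, f2, f3, -, f5, f6⟩ := hT p 1 hp one_ne_zero (by rwa [pow_one])
    rw [pow_one] at f1 f2 f3
    by_cases hp2 : p = 2
    · subst hp2
      obtain ⟨-, -, rfl, rfl⟩ := f5 rfl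
      exact ⟨sub_dvd f2 ev.two_dvd, sub_dvd f3 (dvd_zero _), fun h => absurd rfl h⟩
    · obtain ⟨g0, g1, g2, -⟩ := f6 hp2
      exact ⟨sub_dvd f2 g1, sub_dvd f3 g2, fun _ => hS p _ _ f1 g0⟩
  by_cases q3 : q % 4 = 3
  · have n4 := not_four (hQ q hq) q3
    refine Or.inl ⟨q3, key q hq α β (fun k hk => ?_) fun p s u hp h => ?_⟩
    · have : k ≤ j := by
        by_contra hc
        exact n4 ((pow_dvd_pow 2 (by omega : 2 ≤ k)).trans hk)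
      exact (pow_dvd_pow _ this).mul_left _
    · rcases h with ⟨rfl, rfl⟩ | ⟨h, -⟩ | ⟨-, h⟩
      · ring
      · exact h
      · exact absurd (h q hq hp).1 n4
  by_cases qt : 4 ∣ od q ∧ 2 ^ v ∣ od q
  · have v2 : 2 ≤ v := (hv' 2).1 (qt.1.trans (hdL q hq))
    have hj' : v = j + 1 := by omega
    refine Or.inr (Or.inl ⟨qt.1, ?_, fun hc => ?_⟩)
    · have := key q hq 2 0 (fun k hk => ?_) fun p s u hp h => ?_
      · simpa using this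
      · rw [← pow_succ']
        exact pow_dvd_pow _ (hj' ▸ (hv' k).1 (hk.trans (hdL q hq)))
      · rcases h with ⟨rfl, -⟩ | ⟨-, h⟩ | ⟨rfl, -⟩
        · ring
        · exact absurd (h q hq hp) q3
        · ring
    · obtain ⟨a', s', u', W', -, f2, -, -, f5, -⟩ := hT 2 v Nat.prime_two (by omega)
        (((hv' v).2 le_rfl).mul_left 8)
      obtain ⟨-, -, rfl, -⟩ := f5 rfl
      have f7 : ((2 : ℕ) : ℤ) ^ v ∣ s :=
        Dvd.dvd.trans (by exact_mod_cast qt.2) hc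
      have f8 : (2 : ℤ) ^ v ∣ 2 ^ j := by simpa using f2.add f7
      have := (pow_dvd_pow_iff two_ne_zero (by decide)).1 f8
      omega
  · have nt : ¬ Top Q q := fun h => qt ⟨h.1, by
      have v2 : 2 ≤ v := (hv' 2).1 (h.1.trans (hdL q hq))
      obtain ⟨q', hq', h'⟩ := hlp v (by omega) ((hv' v).2 le_rfl)
      exact h.2 q' hq' v h'⟩
    have k2 : ∀ k, 2 ^ k ∣ od q → k ≤ j := fun k hk => by
      by_contra hc
      exact qt ⟨(pow_dvd_pow 2 (by omega : 2 ≤ k)).trans hk,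
        (pow_dvd_pow 2 (by omega : v ≤ k)).trans hk⟩
    have kp : ∀ x y : ℤ, (od q : ℤ) ∣ x * s + y * u := fun x y =>
      key q hq x y (fun k hk => (pow_dvd_pow _ (k2 k hk)).mul_left _) fun p s u hp h => by
        rcases h with ⟨rfl, rfl⟩ | ⟨-, h⟩ | ⟨-, h⟩
        · ring
        · exact absurd (h q hq hp) q3
        · exact absurd (h q hq hp) nt
    exact Or.inr (Or.inr ⟨by simpa using kp 1 0, by simpa using kp 0 1, q3, nt⟩)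

end Pool.Agent.Lib.MP_f6c7cf_nt.NC
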